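import Pool.Agent.MP_54ec50_nt.Mg.Mod16

namespace Pool.Agent.Results.MP_54ec50_nt.SixCongruences

open PowerSeries
open scoped PowerSeries.WithPiTopology

/-- `(a; q)_∞ = ∏_{k ≥ 0} (1 - a q^k)`, a convergent product of formal power series -/
noncomputable def qPoch (a q : PowerSeries ℤ) : PowerSeries ℤ := ∏' k : ℕ, (1 - a * q ^ k)

/-- `R(q) = (q;q^5)(q^4;q^5) / ((q^2;q^5)(q^3;q^5))` -/
noncomputable def R : PowerSeries ℤ :=
  qPoch X (X ^ 5) * qPoch (X ^ 4) (X ^ 5) *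
    Ring.inverse (qPoch (X ^ 2) (X ^ 5) * qPoch (X ^ 3) (X ^ 5))

/-- `R(q^5)` -/
noncomputable def Rq5 : PowerSeries ℤ := PowerSeries.subst (X ^ 5 : PowerSeries ℤ) R

/-- coefficients of `R(q)^5 / R(q^5)` -/
noncomputable def coefC (n : ℕ) : ℤ := coeff n (R ^ 5 * Ring.inverse Rq5)

/-- coefficients of `R(q^5) / R(q)^5` -/
noncomputable def coefD (n : ℕ) : ℤ := coeff n (Rq5 * Ring.inverse (R ^ 5))

open Pool.Agent.MP_54ec50_nt Finset

lemma hasProd_IP {f : ℕ → PowerSeries ℤ} (h : AdP f) : HasProd f (IP f) := by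
  classical
  unfold HasProd
  rw [PowerSeries.WithPiTopology.tendsto_iff_coeff_tendsto]
  intro d
  apply tendsto_const_nhds.congr'
  simp only [SummationFilter.unconditional_filter]
  filter_upwards [Filter.eventually_ge_atTop (range (d + 1))] with s hs
  have h1 : Cg (d + 1) (∏ k ∈ s \ range (d + 1), f k) (∏ k ∈ s \ range (d + 1), 1) :=
    Cg.prod _ fun k hk => (h k).mono (by simp at hk; omega)
  have h2 := h1.mul (Cg.refl (∏ k ∈ range (d + 1), f k))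
  rw [prod_sdiff hs, prod_const_one, one_mul] at h2
  exact Cg.iff_coeff.mp ((h.cg le_rfl).trans h2.symm) d (by omega)

lemma qPoch_eq (r : ℕ) : qPoch (X ^ r) (X ^ 5) = pk 5 r := by
  have h := (hasProd_IP (adP_pk (m := 5) (by norm_num) r)).tprod_eq
  rw [qPoch, pk, ← h]
  congr 1; funext k; ring

lemma R_eq : R = RR := by
  have h := qPoch_eq 1
  rw [pow_one] at h
  rw [R, h, qPoch_eq, qPoch_eq, qPoch_eq, RR]

lemma Rq5_eq : Rq5 = R5 := by
  rw [Rq5, R_eq, ← expand_apply 5 (by norm_num)]; rfl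

theorem result : ∀ n : ℕ,
    coefC (27 * n + 18) ≡ 0 [ZMOD 3] ∧ coefD (27 * n + 18) ≡ 0 [ZMOD 3] ∧
    coefC (16 * n + 12) ≡ 0 [ZMOD 4] ∧ coefD (16 * n + 12) ≡ 0 [ZMOD 4] ∧
    coefC (32 * n + 28) ≡ 0 [ZMOD 8] ∧ coefD (32 * n + 28) ≡ 0 [ZMOD 8] := by
  intro n
  simp only [Int.modEq_zero_iff_dvd, coefC, coefD, Rq5_eq, R_eq]
  exact ⟨CC_mod3 n, DD_mod3 n, (CC_mod8 n).1, (DD_mod8 n).1, (CC_mod8 n).2, (DD_mod8 n).2⟩

end Pool.Agent.Results.MP_54ec50_nt.SixCongruences
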